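import Pool.Agent.Helper26_BSN.Defs2

/-! TVS, TSG: the universal relations. -/

namespace Pool.Agent.BSN.H76

open Filter Cardinal Pool.Agent.BSig Pool.Agent.BSN

theorem nt0_iff (hN : NatStmt) (e u x : ℕ) : NT0 e (npr u x) ↔
    ∃ u1 W, u = npr u1 W ∧ JustS (BS W) ∧ fc e (npr u1 x) 0 ∈ BS W := by
  obtain ⟨-, -, -, -, hinj, -⟩ := hN
  constructor
  · rintro ⟨u1, W, v, h, h1, h2⟩
    obtain ⟨e1, e2⟩ := hinj _ _ _ _ h
    subst e2
    exact ⟨u1, W, e1, h1, h2⟩
  · rintro ⟨u1, W, h, h1, h2⟩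
    exact ⟨u1, W, x, by rw [h], h1, h2⟩

theorem tvs (hN : NatStmt) (hS : JustSound) (hC : JustCompl) : TVStmt := by
  have h1 : ∀ (j : ℕ) (E : Ex) (x : ℕ), TT (j + 1) E.code x ↔ VV (j + 1) E x := by
    intro j
    induction j with
    | zero =>
      intro E x
      show (∃ u, ¬ ¬ NT0 E.code (npr u x)) ↔ ∃ u, ¬ (E.val (npr u x) ≠ 0)
      constructor
      · rintro ⟨u, h⟩
        obtain ⟨u1, W, -, h2, h3⟩ := (nt0_iff hN _ _ _).mp (not_not.mp h)
        exact ⟨u1, not_not.mpr (hS _ h2 E _ _ h3).symm⟩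
      · rintro ⟨u, h⟩
        have h0 := not_not.mp h
        obtain ⟨W, h2, h3⟩ := hC E (npr u x)
        rw [h0] at h3
        exact ⟨npr u W, not_not.mpr ((nt0_iff hN _ _ _).mpr ⟨u, W, rfl, h2, h3⟩)⟩
    | succ j ih =>
      intro E x
      show (∃ u, ¬ TT (j + 1) E.code (npr u x)) ↔ ∃ u, ¬ VV (j + 1) E (npr u x)
      exact exists_congr fun u => not_congr (ih E _)
  refine ⟨h1, fun j E u x h => ?_⟩
  cases j with
  | zero =>
    have h' : ¬ ¬ NT0 E.code (npr u x) := h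
    obtain ⟨u1, W, h0, h2, h3⟩ := (nt0_iff hN _ _ _).mp (not_not.mp h')
    refine ⟨u1, ?_, ?_⟩
    · rw [h0]
      exact (hN.2.2.2.2.2.2.1 u1 W).1
    · show ¬ (E.val (npr u1 x) ≠ 0)
      exact not_not.mpr (hS _ h2 E _ _ h3).symm
  | succ j => exact ⟨u, le_rfl, fun h' => h ((h1 j E _).mpr h')⟩

theorem npr_term {k : ℕ} {f g : (Fin k → ℕ) → ℕ} (hf : IsTerm f) (hg : IsTerm g) :
    IsTerm (fun v => npr (f v) (g v)) := by
  have h := ((hf.add hg).mul (hf.add hg)).add hf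
  have e : (fun v => npr (f v) (g v)) = fun v => (f v + g v) * (f v + g v) + f v := by
    funext v
    unfold npr
    ring
  rw [e]
  exact h

theorem tsg (hJ : JustDelta) (hC : SigClosed) : TSigma := by
  intro j
  induction j with
  | zero => exact hJ.2
  | succ j ih =>
    obtain ⟨c1, -⟩ := hC ℕ
    refine ⟨1, fun v : Fin (1 + 2) → ℕ => TT j (v 1) (npr (v 0) (v 2)), ?_, fun v => ?_⟩
    · have h := c1 j 2 (1 + 2) (fun v : Fin 2 → ℕ => TT j (v 0) (v 1)) ih
        ![fun v => v 1, fun v => npr (v 0) (v 2)] (by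
          intro i
          match i with
          | 0 => exact IsTerm.var _
          | 1 => exact npr_term (IsTerm.var _) (IsTerm.var _))
      exact h
    · show (∃ u, ¬ TT j (v 0) (npr u (v 1))) ↔ _
      constructor
      · rintro ⟨u, h⟩
        exact ⟨fun _ => u, h⟩
      · rintro ⟨w, h⟩
        exact ⟨w 0, h⟩

end Pool.Agent.BSN.H76
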