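import Pool.Agent.Helper26_BSN.Stmts

/-! QB: bounded killers. -/

namespace Pool.Agent.BSN.H76

open Filter Cardinal Pool.Agent.BSig Pool.Agent.BSN

variable {τ : Tower}

theorem qy_anti (hM : MonoStmt τ) (φ : (Fin 5 → MMt τ) → Prop) (hφ : IsDelta0 φ) (k : ℕ)
    (y y' : MMt τ) (h : y' ≤ y) (q : Finset (MMt τ × Bool)) (hq : q ∈ QY τ φ k y) :
    q ∈ QY τ φ k y' := by
  obtain ⟨α, r, r', t, t', u, h1, h2, h3, h4, h5, h6, h7, h8, h9⟩ := hq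
  exact ⟨α, r, r', t, t', u, h1, h2, h3, h4, (hM φ hφ).2 α α k k y y' r t le_rfl le_rfl h h5,
    (hM φ hφ).2 α α k k y y' r' t' le_rfl le_rfl h h6, h7, h8, h9⟩

theorem qb (hQ1 : QBdd1 τ) (hQY : QYStmt τ) (hInf : InfStmt τ) (hM : MonoStmt τ) : QBdd τ := by
  intro φ hφ c hc hcard hk
  by_contra hcon
  push Not at hcon
  choose k q hq hnc using hcon
  have h1 : ∀ m, ∃ y, Infl y ∧ q m ∈ QY τ φ (k m) y := fun m => (hQY φ hφ (k m) (q m)).mp (hq m)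
  choose y hy hqy using h1
  obtain ⟨z, hz, hzy⟩ := hInf y hy
  obtain ⟨m, hm⟩ := hQ1 φ hφ c hc hcard hk z hz
  exact hnc m (hm (k m) (q m) (qy_anti hM φ hφ (k m) (y m) z (hzy m) (q m) (hqy m)))

end Pool.Agent.BSN.H76
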